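import Pool.Agent.P8H70.TR.Stm

/-!
# Project TR (helper70), package BES
-/

set_option autoImplicit false

open Complex MeasureTheory Finset ComplexConjugate

namespace Pool.Agent.P8H52.TR

open Pool.Agent.P8H70.TR

section
variable (q : ℕ) [NeZero q]

lemma ch_norm (x : ZMod q) : ‖ch q x‖ = 1 := by
  unfold ch
  rw [ZMod.stdAddChar_apply]
  exact Circle.norm_coe _

lemma ch_neg (x : ZMod q) : ch q (-x) = conj (ch q x) := by
  have h : ch q (-x) = (ch q x)⁻¹ := by
    unfold ch
    exact AddChar.map_neg_eq_inv _ _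
  rw [h]
  exact Complex.inv_eq_conj (ch_norm q x)

lemma cs_neg (x : ZMod q) : cs q (-x) = cs q x := by
  unfold cs
  rw [ch_neg, Complex.conj_re]

lemma sn_neg (x : ZMod q) : (ch q (-x)).im = -(ch q x).im := by
  rw [ch_neg, Complex.conj_im]

lemma cs_abs (x : ZMod q) : |cs q x| ≤ 1 := by
  unfold cs
  have := Complex.abs_re_le_norm (ch q x)
  rw [ch_norm] at this
  exact this

lemma cs_sq (x : ZMod q) : cs q x ^ 2 = (1 + (ch q (x * 2)).re) / 2 := by
  have h1 : ch q (x * 2) = ch q x * ch q x := by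
    unfold ch
    rw [mul_two, AddChar.map_add_eq_mul]
  have h2 : (ch q x).re * (ch q x).re + (ch q x).im * (ch q x).im = 1 := by
    have h3 := Complex.normSq_eq_norm_sq (ch q x)
    rw [ch_norm, Complex.normSq_apply] at h3
    rw [h3]; norm_num
  rw [h1, Complex.mul_re]
  unfold cs
  nlinarith

lemma sum_ch2 (hq : 3 ≤ q) : ∑ x : ZMod q, ch q (x * 2) = 0 := by
  classical
  have h := AddChar.sum_mulShift (R := ZMod q) (2 : ZMod q) (ZMod.isPrimitive_stdAddChar q)
  have h2 : (2 : ZMod q) ≠ 0 := by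
    intro h0
    have h3 : ((2 : ℕ) : ZMod q) = 0 := by exact_mod_cast h0
    rw [ZMod.natCast_eq_zero_iff] at h3
    have := Nat.le_of_dvd (by norm_num) h3
    omega
  rw [if_neg h2] at h
  unfold ch
  simpa using h

lemma sum_cs_sq (hq : 3 ≤ q) : ∑ x : ZMod q, cs q x ^ 2 = (q : ℝ) / 2 := by
  have h1 : ∑ x : ZMod q, cs q x ^ 2 = ∑ x : ZMod q, (1 / 2 + (ch q (x * 2)).re / 2) := by
    apply Finset.sum_congr rfl
    intro x _
    rw [cs_sq]; ring
  have h2 : ∑ x : ZMod q, (ch q (x * 2)).re / 2 = 0 := by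
    rw [← Finset.sum_div, ← Complex.re_sum, sum_ch2 q hq]
    simp
  rw [h1, Finset.sum_add_distrib, h2, sum_const, card_univ, ZMod.card, nsmul_eq_mul]
  ring

theorem bes : S_BES := by
  intro q _ hq u hu0 hu1
  have hqR : (0 : ℝ) < q := by exact_mod_cast (by omega : 0 < q)
  constructor
  · -- the imaginary part
    have h1 : (∑ x : ZMod q, cexp (((u * cs q x : ℝ) : ℂ) * I) * conj (ch q x)).im =
        ∑ x : ZMod q, cs q x * Real.sin (u * cs q x) - ∑ x : ZMod q, (ch q x).im * Real.cos (u * cs q x) := by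
      rw [Complex.im_sum, ← Finset.sum_sub_distrib]
      apply Finset.sum_congr rfl
      intro x _
      rw [Complex.mul_im, Complex.exp_ofReal_mul_I_re, Complex.exp_ofReal_mul_I_im, Complex.conj_re, Complex.conj_im]
      unfold cs
      ring
    have h2 : ∑ x : ZMod q, (ch q x).im * Real.cos (u * cs q x) = 0 := by
      have h3 : ∑ x : ZMod q, (ch q x).im * Real.cos (u * cs q x) =
          ∑ x : ZMod q, (ch q (-x)).im * Real.cos (u * cs q (-x)) :=
        (Equiv.sum_comp (Equiv.neg (ZMod q)) (fun x => (ch q x).im * Real.cos (u * cs q x))).symm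
      have h4 : ∑ x : ZMod q, (ch q (-x)).im * Real.cos (u * cs q (-x)) =
          -∑ x : ZMod q, (ch q x).im * Real.cos (u * cs q x) := by
        rw [← Finset.sum_neg_distrib]
        apply Finset.sum_congr rfl
        intro x _
        rw [sn_neg, cs_neg]; ring
      rw [h4] at h3
      linarith
    have h5 : ∀ x : ZMod q, 2 / Real.pi * u * cs q x ^ 2 ≤ cs q x * Real.sin (u * cs q x) := by
      intro x
      have ha := cs_abs q x
      have hpi := Real.pi_gt_three
      have key : ∀ c : ℝ, 0 ≤ c → c ≤ 1 → 2 / Real.pi * u * c ^ 2 ≤ c * Real.sin (u * c) := by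
        intro c hc0 hc1
        have h6 : 2 / Real.pi * (u * c) ≤ Real.sin (u * c) := by
          apply Real.mul_le_sin (by positivity)
          nlinarith
        calc 2 / Real.pi * u * c ^ 2 = c * (2 / Real.pi * (u * c)) := by ring
          _ ≤ c * Real.sin (u * c) := mul_le_mul_of_nonneg_left h6 hc0
      rcases le_total 0 (cs q x) with h | h
      · exact key _ h (abs_le.1 ha).2
      · have h7 := key (-cs q x) (by linarith) (by linarith [(abs_le.1 ha).1])
        rw [mul_neg, Real.sin_neg] at h7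
        nlinarith
    have h6 : 2 / Real.pi * u * ((q : ℝ) / 2) ≤ ∑ x : ZMod q, cs q x * Real.sin (u * cs q x) := by
      rw [← sum_cs_sq q hq, Finset.mul_sum]
      exact Finset.sum_le_sum fun x _ => h5 x
    have h7 : u / 4 * q ≤ 2 / Real.pi * u * ((q : ℝ) / 2) := by
      have h8 : 1 / 4 ≤ 1 / Real.pi := one_div_le_one_div_of_le Real.pi_pos Real.pi_le_four
      have h9 : 2 / Real.pi * u * ((q : ℝ) / 2) = (1 / Real.pi) * (u * q) := by ring
      rw [h9]
      have : 0 ≤ u * q := by positivity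
      nlinarith
    have h8 := Complex.abs_im_le_norm (∑ x : ZMod q, cexp (((u * cs q x : ℝ) : ℂ) * I) * conj (ch q x))
    have h9 := le_abs_self (∑ x : ZMod q, cexp (((u * cs q x : ℝ) : ℂ) * I) * conj (ch q x)).im
    rw [h1, h2] at h9
    rw [h1, h2] at h8
    linarith
  · have h1 : (∑ x : ZMod q, cexp (((u * cs q x : ℝ) : ℂ) * I)).re = ∑ x : ZMod q, Real.cos (u * cs q x) := by
      rw [Complex.re_sum]
      apply Finset.sum_congr rfl
      intro x _
      rw [Complex.exp_ofReal_mul_I_re]
    have h2 : (1 - u ^ 2 / 4) * q ≤ ∑ x : ZMod q, Real.cos (u * cs q x) := by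
      have h3 : ∑ x : ZMod q, (1 - u ^ 2 / 2 * cs q x ^ 2) ≤ ∑ x : ZMod q, Real.cos (u * cs q x) := by
        apply Finset.sum_le_sum
        intro x _
        have := Real.one_sub_sq_div_two_le_cos (x := u * cs q x)
        nlinarith
      rw [Finset.sum_sub_distrib, ← Finset.mul_sum, sum_cs_sq q hq, sum_const, card_univ, ZMod.card] at h3
      simp only [nsmul_eq_mul, mul_one] at h3
      nlinarith
    have h8 := Complex.abs_re_le_norm (∑ x : ZMod q, cexp (((u * cs q x : ℝ) : ℂ) * I))
    have h9 := le_abs_self (∑ x : ZMod q, cexp (((u * cs q x : ℝ) : ℂ) * I)).re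
    rw [h1] at h8 h9
    linarith

end

end Pool.Agent.P8H52.TR
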