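import Pool.Agent.P8H70.TR.Stm
import Pool.Agent.P8H52.TR.Bes

/-!
# Project TR (helper70), package PUP
-/

set_option autoImplicit false

open Complex MeasureTheory Finset ComplexConjugate

namespace Pool.Agent.P8H52.TR

open Pool.Agent.P8H70.TR

lemma tp_cont (n : ℕ) (a : ℕ → ℂ) : Continuous (tp n a) := by
  unfold tp
  fun_prop

lemma tp_per (n : ℕ) (a : ℕ → ℂ) : Function.Periodic (tp n a) (2 * Real.pi) := by
  intro t
  unfold tp
  apply Finset.sum_congr rfl
  intro j _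
  congr 1
  have h1 : ((((j : ℝ) * (t + 2 * Real.pi) : ℝ) : ℂ) * I) =
      (((j * t : ℝ) : ℂ) * I) + (j : ℂ) * (2 * Real.pi * I) := by
    push_cast; ring
  rw [h1, Complex.exp_add, Complex.exp_nat_mul_two_pi_mul_I, mul_one]

/-- translation of a periodic function -/
lemma trans_int (g : ℝ → ℝ) (hg : Function.Periodic g (2 * Real.pi)) (θ : ℝ) :
    ∫ t in (0 : ℝ)..(2 * Real.pi), g (t + θ) = ∫ t in (0 : ℝ)..(2 * Real.pi), g t := by
  rw [intervalIntegral.integral_comp_add_right (f := g) (d := θ)]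
  have h := hg.intervalIntegral_add_eq θ 0
  rw [zero_add] at h ⊢
  rw [add_comm (2 * Real.pi) θ]
  exact h

/-- a sum of translates -/
lemma sum_trans (ι : Type) [Fintype ι] [Nonempty ι] (p : ℝ) (hp : 0 < p) (f V : ℝ → ℂ) (hf : Continuous f)
    (hV : Continuous V) (hper : Function.Periodic V (2 * Real.pi)) (θ : ι → ℝ) (a : ℝ) (ha : 0 ≤ a)
    (h : ∀ t, ‖f t‖ ≤ ∑ l, a * ‖V (t + θ l)‖) :
    ∫ t in (0 : ℝ)..(2 * Real.pi), ‖f t‖ ^ p ≤
      ((Fintype.card ι : ℝ) * a) ^ p * (Fintype.card ι : ℝ) * ∫ t in (0 : ℝ)..(2 * Real.pi), ‖V t‖ ^ p := by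
  have hpt : ∀ t, ‖f t‖ ^ p ≤ ∑ l, ((Fintype.card ι : ℝ) * a) ^ p * ‖V (t + θ l)‖ ^ p := by
    intro t
    obtain ⟨l₀, -, hl₀⟩ := Finset.exists_max_image (univ : Finset ι) (fun l => ‖V (t + θ l)‖) univ_nonempty
    have h1 : ‖f t‖ ≤ (Fintype.card ι : ℝ) * a * ‖V (t + θ l₀)‖ := by
      refine (h t).trans ?_
      calc ∑ l, a * ‖V (t + θ l)‖ ≤ ∑ l : ι, a * ‖V (t + θ l₀)‖ := by
            apply Finset.sum_le_sum
            intro l _
            exact mul_le_mul_of_nonneg_left (hl₀ l (mem_univ _)) ha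
        _ = (Fintype.card ι : ℝ) * a * ‖V (t + θ l₀)‖ := by
            rw [sum_const, card_univ, nsmul_eq_mul, mul_assoc]
    calc ‖f t‖ ^ p ≤ ((Fintype.card ι : ℝ) * a * ‖V (t + θ l₀)‖) ^ p :=
          Real.rpow_le_rpow (norm_nonneg _) h1 hp.le
      _ = ((Fintype.card ι : ℝ) * a) ^ p * ‖V (t + θ l₀)‖ ^ p :=
          Real.mul_rpow (by positivity) (norm_nonneg _)
      _ ≤ ∑ l, ((Fintype.card ι : ℝ) * a) ^ p * ‖V (t + θ l)‖ ^ p := by
          apply Finset.single_le_sum (f := fun l => ((Fintype.card ι : ℝ) * a) ^ p * ‖V (t + θ l)‖ ^ p)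
            (fun l _ => by positivity) (mem_univ l₀)
  have hVc : ∀ l, Continuous (fun t => ‖V (t + θ l)‖ ^ p) := fun l =>
    ((hV.comp (continuous_id.add continuous_const)).norm).rpow_const (fun _ => Or.inr hp.le)
  have hfc : Continuous (fun t => ‖f t‖ ^ p) := hf.norm.rpow_const (fun _ => Or.inr hp.le)
  have hsc : Continuous (fun t => ∑ l, ((Fintype.card ι : ℝ) * a) ^ p * ‖V (t + θ l)‖ ^ p) :=
    continuous_finsetSum _ fun l _ => continuous_const.mul (hVc l)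
  have hle : ∫ t in (0 : ℝ)..(2 * Real.pi), ‖f t‖ ^ p ≤
      ∫ t in (0 : ℝ)..(2 * Real.pi), ∑ l, ((Fintype.card ι : ℝ) * a) ^ p * ‖V (t + θ l)‖ ^ p :=
    intervalIntegral.integral_mono (by positivity) (hfc.intervalIntegrable _ _)
      (hsc.intervalIntegrable _ _) hpt
  refine hle.trans (le_of_eq ?_)
  have hint : ∀ l ∈ (univ : Finset ι), IntervalIntegrable
      (fun t => ((Fintype.card ι : ℝ) * a) ^ p * ‖V (t + θ l)‖ ^ p) volume 0 (2 * Real.pi) :=
    fun l _ => (continuous_const.mul (hVc l)).intervalIntegrable _ _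
  rw [intervalIntegral.integral_finsetSum hint]
  have h2 : ∀ l ∈ (univ : Finset ι), ∫ t in (0 : ℝ)..(2 * Real.pi),
      ((Fintype.card ι : ℝ) * a) ^ p * ‖V (t + θ l)‖ ^ p =
      ((Fintype.card ι : ℝ) * a) ^ p * ∫ t in (0 : ℝ)..(2 * Real.pi), ‖V t‖ ^ p := by
    intro l _
    rw [intervalIntegral.integral_const_mul]
    congr 1
    refine trans_int (fun t => ‖V t‖ ^ p) ?_ (θ l)
    intro t
    simp only
    rw [hper t]
  rw [Finset.sum_congr rfl h2, sum_const, card_univ, nsmul_eq_mul]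
  ring

lemma ch_mul (q : ℕ) [NeZero q] (j : ℕ) (x : ZMod q) : ch q ((j : ZMod q) * x) = ch q x ^ j := by
  unfold ch
  rw [← nsmul_eq_mul, AddChar.map_nsmul_eq_pow]

/-- the translates -/
lemma tp_shift (q : ℕ) [NeZero q] (n : ℕ) (φ : ℕ → ℝ) (x : ZMod q) (t : ℝ) :
    tp n (fun j => ((φ j * cs q ((j : ZMod q) * x) : ℝ) : ℂ)) t =
      (tp n (fun j => (φ j : ℂ)) (t + (ch q x).arg) + tp n (fun j => (φ j : ℂ)) (t + -(ch q x).arg)) / 2 := by
  unfold tp
  rw [← Finset.sum_add_distrib, Finset.sum_div]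
  apply Finset.sum_congr rfl
  intro j _
  have hc : ch q x = cexp (((ch q x).arg : ℝ) * I) := by
    have h := Complex.norm_mul_exp_arg_mul_I (ch q x)
    rw [ch_norm, Complex.ofReal_one, one_mul] at h
    exact h.symm
  have hj : (cs q ((j : ZMod q) * x) : ℂ) =
      (cexp ((j : ℂ) * (((ch q x).arg : ℝ) * I)) + cexp (-((j : ℂ) * (((ch q x).arg : ℝ) * I)))) / 2 := by
    unfold cs
    rw [ch_mul]
    have h1 : ch q x ^ j = cexp ((j : ℂ) * (((ch q x).arg : ℝ) * I)) := by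
      conv_lhs => rw [hc]
      rw [← Complex.exp_nat_mul]
    have h2 : (j : ℂ) * (((ch q x).arg : ℝ) * I) = (((j : ℝ) * (ch q x).arg : ℝ) : ℂ) * I := by
      push_cast; ring
    rw [h1, h2, Complex.exp_ofReal_mul_I_re, ← neg_mul, ← Complex.ofReal_neg]
    rw [Complex.ofReal_cos, Complex.cos]
    push_cast
    ring_nf
  have e0 : ((φ j * cs q ((j : ZMod q) * x) : ℝ) : ℂ) = (φ j : ℂ) * (cs q ((j : ZMod q) * x) : ℂ) :=
    Complex.ofReal_mul _ _
  have e1 : (((j : ℝ) * (t + (ch q x).arg) : ℝ) : ℂ) * I =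
      ((j * t : ℝ) : ℂ) * I + (j : ℂ) * (((ch q x).arg : ℝ) * I) := by
    push_cast; ring
  have e2 : (((j : ℝ) * (t + -(ch q x).arg) : ℝ) : ℂ) * I =
      ((j * t : ℝ) : ℂ) * I + -((j : ℂ) * (((ch q x).arg : ℝ) * I)) := by
    push_cast; ring
  beta_reduce
  rw [e0, hj, e1, e2, Complex.exp_add, Complex.exp_add]
  ring

theorem pup : S_PUP := by
  intro p hp n k q _ φ s ω hk hs
  have hkR : (1 : ℝ) ≤ k := by exact_mod_cast hk
  set V : ℝ → ℂ := tp n (fun j => (φ j : ℂ)) with hV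
  set θ : Option (Fin k ⊕ Fin k) → ℝ := fun l => match l with
    | none => 0
    | some (Sum.inl i) => (ch q (ω i)).arg
    | some (Sum.inr i) => -(ch q (ω i)).arg with hθ
  have hform : ∀ t, tp n (fun j => ((φ j * (1 + (YY q (mu q j ω) - s) / (4 * k)) : ℝ) : ℂ)) t =
      ((1 - s / (4 * k) : ℝ) : ℂ) * V t +
        ((1 / (8 * k) : ℝ) : ℂ) * ∑ i, (V (t + (ch q (ω i)).arg) + V (t + -(ch q (ω i)).arg)) := by
    intro t
    have h1 : ∑ i, (V (t + (ch q (ω i)).arg) + V (t + -(ch q (ω i)).arg)) =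
        ∑ i, 2 * tp n (fun j => ((φ j * cs q ((j : ZMod q) * ω i) : ℝ) : ℂ)) t := by
      apply Finset.sum_congr rfl
      intro i _
      rw [tp_shift, hV]
      ring
    rw [h1, hV]
    unfold tp
    rw [Finset.mul_sum]
    simp only [Finset.mul_sum]
    rw [Finset.sum_comm, ← Finset.sum_add_distrib]
    apply Finset.sum_congr rfl
    intro j _
    have h2 : YY q (mu q j ω) = ∑ i, cs q ((j : ZMod q) * ω i) := rfl
    rw [h2]
    have hk0 : (k : ℂ) ≠ 0 := by
      have : (k : ℂ) ≠ 0 := by exact_mod_cast (by omega : k ≠ 0)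
      exact this
    have h3 : ∑ i, ((1 / (8 * k) : ℝ) : ℂ) * (2 * (((φ j * cs q ((j : ZMod q) * ω i) : ℝ) : ℂ) * cexp (((j * t : ℝ) : ℂ) * I))) =
        ((1 / (4 * k) : ℝ) : ℂ) * (φ j : ℂ) * cexp (((j * t : ℝ) : ℂ) * I) * ((∑ i, cs q ((j : ZMod q) * ω i) : ℝ) : ℂ) := by
      rw [Complex.ofReal_sum, Finset.mul_sum]
      apply Finset.sum_congr rfl
      intro i _
      push_cast
      field_simp
      ring
    rw [h3]
    push_cast
    field_simp
    ring
  have hbound : ∀ t, ‖tp n (fun j => ((φ j * (1 + (YY q (mu q j ω) - s) / (4 * k)) : ℝ) : ℂ)) t‖ ≤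
      ∑ l, (5 / 4) * ‖V (t + θ l)‖ := by
    intro t
    rw [hform]
    have h1 : |1 - s / (4 * k)| ≤ 5 / 4 := by
      have h2 : |s / (4 * k)| ≤ 1 / 4 := by
        rw [abs_div, abs_of_pos (by positivity : (0 : ℝ) < 4 * k), div_le_div_iff₀ (by positivity) (by norm_num)]
        linarith
      rw [abs_le] at h2 ⊢
      constructor <;> linarith [h2.1, h2.2]
    have h3 : (1 : ℝ) / (8 * k) ≤ 5 / 4 := by
      rw [div_le_div_iff₀ (by positivity) (by norm_num)]
      linarith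
    rw [Fintype.sum_option, Fintype.sum_sum_type]
    simp only [hθ, add_zero]
    calc ‖((1 - s / (4 * k) : ℝ) : ℂ) * V t +
        ((1 / (8 * k) : ℝ) : ℂ) * ∑ i, (V (t + (ch q (ω i)).arg) + V (t + -(ch q (ω i)).arg))‖
        ≤ |1 - s / (4 * k)| * ‖V t‖ + (1 / (8 * k)) *
          ∑ i, (‖V (t + (ch q (ω i)).arg)‖ + ‖V (t + -(ch q (ω i)).arg)‖) := by
          refine (norm_add_le _ _).trans ?_
          rw [norm_mul, norm_mul, Complex.norm_real, Complex.norm_real, Real.norm_eq_abs, Real.norm_eq_abs,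
            abs_of_pos (by positivity : (0 : ℝ) < 1 / (8 * k))]
          gcongr
          refine (norm_sum_le _ _).trans ?_
          exact Finset.sum_le_sum fun i _ => norm_add_le _ _
      _ ≤ 5 / 4 * ‖V t‖ + 5 / 4 *
          ∑ i, (‖V (t + (ch q (ω i)).arg)‖ + ‖V (t + -(ch q (ω i)).arg)‖) := by
          have h5 : 0 ≤ ∑ i, (‖V (t + (ch q (ω i)).arg)‖ + ‖V (t + -(ch q (ω i)).arg)‖) :=
            Finset.sum_nonneg fun i _ => by positivity
          exact add_le_add (mul_le_mul_of_nonneg_right h1 (norm_nonneg _)) (mul_le_mul_of_nonneg_right h3 h5)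
      _ = 5 / 4 * ‖V t‖ + (∑ i, 5 / 4 * ‖V (t + (ch q (ω i)).arg)‖ +
          ∑ i, 5 / 4 * ‖V (t + -(ch q (ω i)).arg)‖) := by
          rw [Finset.sum_add_distrib, mul_add, Finset.mul_sum, Finset.mul_sum]
  have hmain := sum_trans (Option (Fin k ⊕ Fin k)) p hp
    (tp n (fun j => ((φ j * (1 + (YY q (mu q j ω) - s) / (4 * k)) : ℝ) : ℂ))) V (tp_cont _ _) (tp_cont _ _)
    (tp_per _ _) θ (5 / 4) (by norm_num) hbound
  refine hmain.trans ?_
  have hI : 0 ≤ ∫ t in (0 : ℝ)..(2 * Real.pi), ‖V t‖ ^ p := by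
    apply intervalIntegral.integral_nonneg (by positivity)
    intro t _
    positivity
  apply mul_le_mul_of_nonneg_right _ hI
  have hcard : (Fintype.card (Option (Fin k ⊕ Fin k)) : ℝ) = 2 * k + 1 := by
    simp
    ring
  rw [hcard, Real.rpow_add (by positivity), Real.rpow_one]
  apply mul_le_mul
  · apply Real.rpow_le_rpow (by positivity) _ hp.le
    linarith
  · linarith
  · positivity
  · positivity

end Pool.Agent.P8H52.TR
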